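import Mathlib

/-! Classes in `Ext^(n+1)` are effaceable, and products of classes of degree one and `n`. -/

set_option autoImplicit false

universe w v u

open CategoryTheory Category Abelian

namespace Pool.Agent.Q187.EX

variable {C : Type u} [Category.{v} C] [Abelian C]

section
open HomologicalComplex

set_option backward.defeqAttrib.useBackward true in
set_option backward.isDefEq.respectTransparency false in
theorem exists_epi_complex {X : C} {K : CochainComplex C ℤ}
    (π : K ⟶ (CochainComplex.singleFunctor C 0).obj X) [K.IsStrictlyLE 0] [QuasiIsoAt π 0] :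
    ∃ (p : K.X 0 ⟶ X) (ι : (CochainComplex.singleFunctor C 0).obj (K.X 0) ⟶ K), Epi p ∧
      ι ≫ π = (CochainComplex.singleFunctor C 0).map p := by
  let e := K.iCyclesIso 0 (0 + 1) (by simp)
    ((K.isZero_of_isStrictlyLE 0 (0 + 1) (by simp)).eq_of_tgt _ _)
  let α := e.inv ≫ K.homologyπ 0 ≫ homologyMap π 0 ≫ (singleObjHomologySelfIso _ _ _).hom
  have : π.f 0 = α ≫ (singleObjXSelf (ComplexShape.up ℤ) 0 X).inv := by
    rw [← cancel_epi e.hom]
    dsimp [α, e]
    rw [assoc, assoc, assoc, iCyclesIso_hom_inv_id_assoc,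
      homologyπ_naturality_assoc]
    dsimp [CochainComplex.singleFunctor, CochainComplex.singleFunctors]
    rw [homologyπ_singleObjHomologySelfIso_hom_assoc,
      ← singleObjCyclesSelfIso_inv_iCycles, Iso.hom_inv_id_assoc, ← cyclesMap_i]
  refine ⟨α, mkHomFromSingle (𝟙 _) (by
      rintro _ rfl
      apply (K.isZero_of_isStrictlyLE 0 (0 + 1) (by simp)).eq_of_tgt), ?_, ?_⟩
  · have h1 : Epi (K.homologyπ 0) := inferInstance
    have h2 : IsIso (homologyMap π 0) := inferInstance
    have h3 : Epi e.inv := inferInstance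
    exact epi_comp _ _
  · apply HomologicalComplex.from_single_hom_ext
    rw [comp_f, mkHomFromSingle_f, this, comp_id]
    dsimp [CochainComplex.singleFunctor, CochainComplex.singleFunctors]
    rw [single_map_f_self]

end

section
open DerivedCategory

set_option backward.isDefEq.respectTransparency false in
theorem exists_epi [HasExt.{w} C] {X Y : C} {n : ℕ} (x : Ext.{w} X Y (n + 1)) :
    ∃ (X' : C) (p : X' ⟶ X), Epi p ∧ (Ext.mk₀ p).comp x (zero_add _) = 0 := by
  let := HasDerivedCategory.standard C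
  let φ : Q.obj ((CochainComplex.singleFunctor C 0).obj X) ⟶
      Q.obj ((CochainComplex.singleFunctor C (-(n + 1))).obj Y) :=
    x.hom ≫ ((singleFunctors C).shiftIso (n + 1) (-(n + 1)) 0 (by lia)).hom.app _
  obtain ⟨K, _, π, h, g, hφ⟩ := right_fac_of_isStrictlyLE φ 0
  rw [isIso_Q_map_iff_quasiIso] at h
  obtain ⟨p, ι, hp, hι⟩ := exists_epi_complex π
  refine ⟨K.X 0, p, hp, ?_⟩
  have h₂ : ι ≫ g = 0 := by
    apply HomologicalComplex.from_single_hom_ext
    have : ((CochainComplex.singleFunctor C (-(n + 1 : ℤ))).obj Y).IsStrictlyLE (-(n + 1 : ℤ)) :=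
      inferInstance
    exact (CochainComplex.isZero_of_isStrictlyLE
      ((CochainComplex.singleFunctor C (-(n + 1 : ℤ))).obj Y) (-(n + 1)) 0 (by lia)).eq_of_tgt _ _
  have h3 : (singleFunctor C 0).map p ≫ φ = 0 := by
    have e : (singleFunctor C 0).map p = Q.map ((CochainComplex.singleFunctor C 0).map p) := rfl
    rw [e, ← hι, hφ, Q.map_comp, assoc, IsIso.hom_inv_id_assoc, ← Q.map_comp, h₂, Q.map_zero]
  apply Ext.homEquiv.injective
  change ((Ext.mk₀ p).comp x (zero_add _)).hom = (0 : Ext.{w} (K.X 0) Y (n + 1)).hom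
  rw [← Ext.singleFunctor_map_comp_hom, Ext.zero_hom]
  simp only [← cancel_mono (((singleFunctors C).shiftIso (n + 1) (-(n + 1)) 0
    (by lia)).hom.app _), Limits.zero_comp, assoc]
  exact h3

end

/-- every class of degree `n + 1` is the product of the class of a short exact sequence and a class
of degree `n` -/
theorem exists_extClass [HasExt.{w} C] {X Y : C} {n : ℕ} (x : Ext.{w} X Y (n + 1)) :
    ∃ (K L : C) (i : K ⟶ L) (p : L ⟶ X) (h : i ≫ p = 0)
      (hS : (ShortComplex.mk i p h).ShortExact) (y : Ext.{w} K Y n),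
      hS.extClass.comp y (add_comm 1 n) = x := by
  obtain ⟨L, p, hp, hx⟩ := exists_epi x
  have hS : (ShortComplex.mk (Limits.kernel.ι p) p (Limits.kernel.condition p)).ShortExact :=
    { exact := ShortComplex.exact_of_f_is_kernel _ (Limits.kernelIsKernel p)
      mono_f := inferInstance
      epi_g := hp }
  obtain ⟨y, hy⟩ := Ext.contravariant_sequence_exact₃ hS Y x hx (add_comm 1 n)
  exact ⟨_, _, _, _, _, hS, y, hy⟩

end Pool.Agent.Q187.EX
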