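import Pool.Agent.Q187.EX.Main

/-! The cohomological dimension of a rigid tensor category of objects of finite length, in all degrees. -/

set_option autoImplicit false

universe w v u

open CategoryTheory Category Abelian Limits MonoidalCategory

namespace Pool.Agent.Q187.EX

section
variable {A : Type u} [Category.{v} A] [Abelian A] [HasExt.{w} A]

/-- if `Ext^n` vanishes identically, all `Ext^m`, `m ≥ n`, do -/
theorem vanish_of_le {n m : ℕ} (hn : n ≤ m) (h : Vanish.{w} A n) : Vanish.{w} A m := by
  obtain ⟨k, rfl⟩ := Nat.exists_eq_add_of_le' hn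
  clear hn
  induction k with
  | zero => rwa [Nat.zero_add]
  | succ k ih =>
    rw [Nat.succ_add]
    intro X Y x
    obtain ⟨K, L, i, p, h, hS, y, rfl⟩ := exists_extClass x
    rw [ih K Y y, Ext.comp_zero]

variable [MonoidalCategory A] [MonoidalPreadditive A] [RigidCategory A]

/-- everything in degrees at least `n` follows from `Ext^n(1, S)` for simple `S` -/
theorem dim_iff (hf : ∀ W : A, FinLen W) (n : ℕ) :
    (∀ m, n ≤ m → Vanish.{w} A m) ↔
      ∀ S : A, Simple S → ∀ x : Ext.{w} (𝟙_ A) S n, x = 0 := by
  constructor
  · intro h S _ x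
    exact h n le_rfl _ _ x
  · intro h m hm
    exact vanish_of_le hm (of_unit fun W x => of_simple h (hf W) x)

end

end Pool.Agent.Q187.EX
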