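import Pool.Agent.Q187.EX.Nat

/-! Cohomological dimension of rigid tensor categories with restriction and induction. -/

set_option autoImplicit false

universe w v u

open CategoryTheory Category Abelian Limits MonoidalCategory

namespace Pool.Agent.Q187.EX

/-- all `Ext^n(V, W)` vanish -/
def Vanish (C : Type u) [Category.{v} C] [Abelian C] [HasExt.{w} C] (n : ℕ) : Prop :=
  ∀ (V W : C) (x : Ext.{w} V W n), x = 0

/-- Objects of finite length. -/
inductive FinLen {C : Type u} [Category.{v} C] [Abelian C] : C → Prop
  | zero (X : C) (h : IsZero X) : FinLen X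
  | extend (K X S : C) (i : K ⟶ X) (p : X ⟶ S) (h : i ≫ p = 0)
      (hS : (ShortComplex.mk i p h).ShortExact) (hK : FinLen K) (hs : Simple S) : FinLen X

/-- Restriction and induction between the categories `A` (over the smaller field) and `B`: exact
functors, adjoint on both sides, such that the objects are retracts of `Res Ind V` and
`Ind Res M`. -/
structure ResInd (A : Type u) [Category.{v} A] [Abelian A] (B : Type u) [Category.{v} B]
    [Abelian B] where
  res : A ⥤ B
  ind : B ⥤ A
  res_add : res.Additive
  ind_add : ind.Additive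
  indRes : ind ⊣ res
  resInd : res ⊣ ind
  retB : ∀ V : B, ∃ (i : V ⟶ res.obj (ind.obj V)) (r : res.obj (ind.obj V) ⟶ V), i ≫ r = 𝟙 V
  retA : ∀ M : A, ∃ (i : M ⟶ ind.obj (res.obj M)) (r : ind.obj (res.obj M) ⟶ M), i ≫ r = 𝟙 M

section
variable {A : Type u} [Category.{v} A] [Abelian A] [HasExt.{w} A]
  {B : Type u} [Category.{v} B] [Abelian B] [HasExt.{w} B]

/-- the vanishing of `Ext^n` for the two categories is equivalent -/
theorem vanish_iff (D : ResInd A B) (n : ℕ) : Vanish.{w} A n ↔ Vanish.{w} B n := by
  have := D.res_add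
  have := D.ind_add
  have h1 : PreservesLimits D.res := D.indRes.rightAdjoint_preservesLimits
  have h2 : PreservesColimits D.res := D.resInd.leftAdjoint_preservesColimits
  have h3 : PreservesLimits D.ind := D.resInd.rightAdjoint_preservesLimits
  have h4 : PreservesColimits D.ind := D.indRes.leftAdjoint_preservesColimits
  have h5 : PreservesFiniteLimits D.res := PreservesLimits.preservesFiniteLimits _
  have h6 : PreservesFiniteColimits D.res := PreservesColimits.preservesFiniteColimits _
  have h7 : PreservesFiniteLimits D.ind := PreservesLimits.preservesFiniteLimits _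
  have h8 : PreservesFiniteColimits D.ind := PreservesColimits.preservesFiniteColimits _
  constructor
  · intro h V W x
    obtain ⟨i, r, hir⟩ := D.retB V
    refine retract_zero i r hir (fun y => ?_) x
    exact adj_zero D.res D.ind D.resInd (fun z => h _ _ z) y
  · intro h V W x
    obtain ⟨i, r, hir⟩ := D.retA V
    refine retract_zero i r hir (fun y => ?_) x
    exact adj_zero D.ind D.res D.indRes (fun z => h _ _ z) y

/-- devissage in the second variable -/
theorem of_simple {U : A} {n : ℕ} (h : ∀ S : A, Simple S → ∀ x : Ext.{w} U S n, x = 0) {W : A}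
    (hW : FinLen W) (x : Ext.{w} U W n) : x = 0 := by
  induction hW with
  | zero X hX =>
    have h1 : x.comp (Ext.mk₀ (𝟙 X)) (add_zero n) = x := Ext.comp_mk₀_id x
    rw [← h1, hX.eq_zero_of_src (𝟙 X), Ext.mk₀_zero, Ext.comp_zero]
  | extend K X S i p hip hS hK hs ih =>
    obtain ⟨y, rfl⟩ := Ext.covariant_sequence_exact₂ U hS x (h S hs _)
    rw [ih y, Ext.zero_comp]

variable [MonoidalCategory A] [MonoidalPreadditive A] [RigidCategory A]

/-- reduction to the unit object in the first variable -/
theorem of_unit {n : ℕ} (h : ∀ W : A, ∀ x : Ext.{w} (𝟙_ A) W n, x = 0) : Vanish.{w} A n := by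
  intro V W x
  have a1 : tensorLeft V ⊣ tensorLeft (ᘁV) := tensorLeftAdjunction (ᘁV) V
  have a2 : tensorLeft (Vᘁ) ⊣ tensorLeft V := tensorLeftAdjunction V (Vᘁ)
  have a3 : tensorLeft (ᘁV) ⊣ tensorLeft (ᘁ(ᘁV)) := tensorLeftAdjunction (ᘁ(ᘁV)) (ᘁV)
  have h1 : PreservesLimits (tensorLeft V) := a2.rightAdjoint_preservesLimits
  have h2 : PreservesColimits (tensorLeft V) := a1.leftAdjoint_preservesColimits
  have h3 : PreservesLimits (tensorLeft (ᘁV)) := a1.rightAdjoint_preservesLimits
  have h4 : PreservesColimits (tensorLeft (ᘁV)) := a3.leftAdjoint_preservesColimits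
  have h5 : PreservesFiniteLimits (tensorLeft V) := PreservesLimits.preservesFiniteLimits _
  have h6 : PreservesFiniteColimits (tensorLeft V) := PreservesColimits.preservesFiniteColimits _
  have h7 : PreservesFiniteLimits (tensorLeft (ᘁV)) := PreservesLimits.preservesFiniteLimits _
  have h8 : PreservesFiniteColimits (tensorLeft (ᘁV)) :=
    PreservesColimits.preservesFiniteColimits _
  have key : ∀ y : Ext.{w} ((tensorLeft V).obj (𝟙_ A)) W n, y = 0 := fun y =>
    adj_zero (tensorLeft V) (tensorLeft (ᘁV)) a1 (fun z => h _ z) y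
  exact retract_zero (ρ_ V).inv (ρ_ V).hom (Iso.inv_hom_id _) key x

/-- everything in degrees at least `2` follows from `Ext^2(1, S)` for simple `S` -/
theorem main (hf : ∀ W : A, FinLen W) :
    (∀ n, 2 ≤ n → Vanish.{w} A n) ↔
      ∀ S : A, Simple S → ∀ x : Ext.{w} (𝟙_ A) S 2, x = 0 := by
  constructor
  · intro h S _ x
    exact h 2 le_rfl _ _ x
  · intro h n hn V W x
    exact two_le (of_unit fun W x => of_simple h (hf W) x) V W n hn x

end

end Pool.Agent.Q187.EX
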