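import Pool.Agent.Q187.EX.Efface

/-! Exact functors, natural transformations and adjunctions on Ext groups. -/

set_option autoImplicit false

universe w w' v u v' u'

open CategoryTheory Category Abelian Limits

namespace Pool.Agent.Q187.EX

variable {C : Type u} [Category.{v} C] [Abelian C] [HasExt.{w} C]
variable {D : Type u'} [Category.{v'} D] [Abelian D] [HasExt.{w'} D]

/-- induction on classes in Ext groups -/
theorem ext_induction {motive : ∀ {X Y : C} {n : ℕ}, Ext.{w} X Y n → Prop}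
    (h0 : ∀ {X Y : C} (f : X ⟶ Y), motive (Ext.mk₀ f))
    (h1 : ∀ {K L X Y : C} (i : K ⟶ L) (p : L ⟶ X) (h : i ≫ p = 0)
      (hS : (ShortComplex.mk i p h).ShortExact) {n : ℕ} (y : Ext.{w} K Y n), motive y →
      motive (hS.extClass.comp y (add_comm 1 n)))
    {X Y : C} {n : ℕ} (x : Ext.{w} X Y n) : motive x := by
  induction n generalizing X Y with
  | zero =>
    obtain ⟨f, rfl⟩ := (Ext.mk₀_bijective X Y).2 x
    exact h0 f
  | succ n ih =>
    obtain ⟨K, L, i, p, h, hS, y, rfl⟩ := exists_extClass x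
    exact h1 i p h hS y (ih y)

section
variable (G : C ⥤ D) [G.Additive] [PreservesFiniteLimits G] [PreservesFiniteColimits G]
  (H : D ⥤ C) [H.Additive] [PreservesFiniteLimits H] [PreservesFiniteColimits H]

/-- the class of the image of a short exact sequence under two exact functors -/
noncomputable def ec {K L X : C} {i : K ⟶ L} {p : L ⟶ X} {h : i ≫ p = 0}
    (hS : (ShortComplex.mk i p h).ShortExact) : Ext.{w} (H.obj (G.obj X)) (H.obj (G.obj K)) 1 :=
  ((hS.map_of_exact G).map_of_exact H).extClass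

/-- the class of a short exact sequence, with its source and target -/
noncomputable def ec0 {K L X : C} {i : K ⟶ L} {p : L ⟶ X} {h : i ≫ p = 0}
    (hS : (ShortComplex.mk i p h).ShortExact) : Ext.{w} X K 1 := hS.extClass

theorem map_ec0 {K L X : C} {i : K ⟶ L} {p : L ⟶ X} {h : i ≫ p = 0}
    (hS : (ShortComplex.mk i p h).ShortExact) :
    ((ec0 hS).mapExactFunctor G).mapExactFunctor H = ec G H hS := by
  have e1 : (hS.extClass).mapExactFunctor G = (hS.map_of_exact G).extClass :=
    Ext.mapExactFunctor_extClass G hS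
  have e2 : ((hS.map_of_exact G).extClass).mapExactFunctor H =
      ((hS.map_of_exact G).map_of_exact H).extClass := Ext.mapExactFunctor_extClass H _
  exact (congrArg (fun z => Ext.mapExactFunctor H z) e1).trans e2

/-- naturality for the unit-like transformations -/
theorem nat_unit (η : ∀ X : C, X ⟶ H.obj (G.obj X))
    (hη : ∀ {X Y : C} (f : X ⟶ Y), f ≫ η Y = η X ≫ H.map (G.map f)) {X Y : C} {n : ℕ}
    (x : Ext.{w} X Y n) :
    x.comp (Ext.mk₀ (η Y)) (add_zero n) =
      (Ext.mk₀ (η X)).comp ((x.mapExactFunctor G).mapExactFunctor H) (zero_add n) := by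
  induction x using ext_induction with
  | h0 f =>
    rw [Ext.mapExactFunctor_mk₀, Ext.mapExactFunctor_mk₀, Ext.mk₀_comp_mk₀, Ext.mk₀_comp_mk₀, hη]
  | @h1 K L X Y i p h hS n y ih =>
    have h2 : (ec0 hS).comp (Ext.mk₀ (η K)) (add_zero 1) =
        (Ext.mk₀ (η X)).comp (ec G H hS) (zero_add 1) :=
      ShortComplex.ShortExact.extClass_naturality hS
        ((hS.map_of_exact G).map_of_exact H)
        { τ₁ := η K
          τ₂ := η L
          τ₃ := η X
          comm₁₂ := (hη i).symm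
          comm₂₃ := (hη p).symm }
    change ((ec0 hS).comp y (add_comm 1 n)).comp (Ext.mk₀ (η Y)) (add_zero (n + 1)) =
      (Ext.mk₀ (η X)).comp
        ((((ec0 hS).comp y (add_comm 1 n)).mapExactFunctor G).mapExactFunctor H)
        (zero_add (n + 1))
    rw [Ext.mapExactFunctor_comp, Ext.mapExactFunctor_comp, map_ec0,
      Ext.comp_assoc_of_third_deg_zero, ih,
      ← Ext.comp_assoc (a₁₂ := 1) _ _ _ (by lia) (by lia) (by lia), h2,
      Ext.comp_assoc (a₂₃ := n + 1) _ _ _ (by lia) (by lia) (by lia)]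

/-- naturality for the counit-like transformations -/
theorem nat_counit (ε : ∀ X : C, H.obj (G.obj X) ⟶ X)
    (hε : ∀ {X Y : C} (f : X ⟶ Y), H.map (G.map f) ≫ ε Y = ε X ≫ f) {X Y : C} {n : ℕ}
    (x : Ext.{w} X Y n) :
    ((x.mapExactFunctor G).mapExactFunctor H).comp (Ext.mk₀ (ε Y)) (add_zero n) =
      (Ext.mk₀ (ε X)).comp x (zero_add n) := by
  induction x using ext_induction with
  | h0 f =>
    rw [Ext.mapExactFunctor_mk₀, Ext.mapExactFunctor_mk₀, Ext.mk₀_comp_mk₀, Ext.mk₀_comp_mk₀, hε]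
  | @h1 K L X Y i p h hS n y ih =>
    have h2 : (ec G H hS).comp (Ext.mk₀ (ε K)) (add_zero 1) =
        (Ext.mk₀ (ε X)).comp (ec0 hS) (zero_add 1) :=
      ShortComplex.ShortExact.extClass_naturality
        ((hS.map_of_exact G).map_of_exact H) hS
        { τ₁ := ε K
          τ₂ := ε L
          τ₃ := ε X
          comm₁₂ := (hε i).symm
          comm₂₃ := (hε p).symm }
    change ((((ec0 hS).comp y (add_comm 1 n)).mapExactFunctor G).mapExactFunctor H).comp
        (Ext.mk₀ (ε Y)) (add_zero (n + 1)) =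
      (Ext.mk₀ (ε X)).comp ((ec0 hS).comp y (add_comm 1 n)) (zero_add (n + 1))
    rw [Ext.mapExactFunctor_comp, Ext.mapExactFunctor_comp, map_ec0,
      Ext.comp_assoc_of_third_deg_zero, ih,
      ← Ext.comp_assoc (a₁₂ := 1) _ _ _ (by lia) (by lia) (by lia), h2,
      Ext.comp_assoc (a₂₃ := n + 1) _ _ _ (by lia) (by lia) (by lia)]

end

/-- adjoint exact functors: if `Ext^n(A, R B)` vanishes, so does `Ext^n(L A, B)` -/
theorem adj_zero (L : C ⥤ D) [L.Additive] [PreservesFiniteLimits L] [PreservesFiniteColimits L]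
    (R : D ⥤ C) [R.Additive] [PreservesFiniteLimits R] [PreservesFiniteColimits R]
    (adj : L ⊣ R) {A : C} {B : D} {n : ℕ} (h : ∀ y : Ext.{w} A (R.obj B) n, y = 0)
    (x : Ext.{w'} (L.obj A) B n) : x = 0 := by
  let u : A ⟶ R.obj (L.obj A) := adj.unit.app A
  let ε : ∀ B : D, L.obj (R.obj B) ⟶ B := fun B => adj.counit.app B
  have hu : L.map u ≫ ε (L.obj A) = 𝟙 (L.obj A) := adj.left_triangle_components A
  have h1 : (Ext.mk₀ u).comp (x.mapExactFunctor R) (zero_add n) = 0 := h _
  have h2 : (Ext.mk₀ (L.map u)).comp ((x.mapExactFunctor R).mapExactFunctor L) (zero_add n) =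
      0 := by
    rw [← Ext.mapExactFunctor_mk₀, ← Ext.mapExactFunctor_comp, h1, Ext.mapExactFunctor_zero]
  have h4 := nat_counit R L ε (fun f => adj.counit_naturality f) x
  have h3 : ((Ext.mk₀ (L.map u)).comp ((x.mapExactFunctor R).mapExactFunctor L)
      (zero_add n)).comp (Ext.mk₀ (ε B)) (add_zero n) = 0 := by
    rw [h2, Ext.zero_comp]
  rw [Ext.comp_assoc_of_third_deg_zero, h4, Ext.mk₀_comp_mk₀_assoc, hu, Ext.mk₀_id_comp] at h3
  exact h3

/-- retracts in the first variable -/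
theorem retract_zero {A A' B : C} (i : A ⟶ A') (r : A' ⟶ A) (h : i ≫ r = 𝟙 A) {n : ℕ}
    (h0 : ∀ y : Ext.{w} A' B n, y = 0) (x : Ext.{w} A B n) : x = 0 := by
  have h1 := h0 ((Ext.mk₀ r).comp x (zero_add n))
  have h2 : (Ext.mk₀ i).comp ((Ext.mk₀ r).comp x (zero_add n)) (zero_add n) =
      (Ext.mk₀ i).comp 0 (zero_add n) := by rw [h1]
  rwa [Ext.mk₀_comp_mk₀_assoc, h, Ext.mk₀_id_comp, Ext.comp_zero] at h2

/-- if `Ext^n` vanishes for `n = 2`, it vanishes for all `n ≥ 2` -/
theorem two_le (h : ∀ (X Y : C) (x : Ext.{w} X Y 2), x = 0) (X Y : C) (n : ℕ) (hn : 2 ≤ n)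
    (x : Ext.{w} X Y n) : x = 0 := by
  obtain ⟨m, rfl⟩ := Nat.exists_eq_add_of_le' hn
  clear hn
  induction m generalizing X Y with
  | zero => exact h X Y x
  | succ m ih =>
    obtain ⟨K, L, i, p, h, hS, y, rfl⟩ := exists_extClass x
    rw [ih K Y y, Ext.comp_zero]

end Pool.Agent.Q187.EX
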